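import Pool.Agent.helper95.FR.Spec

/-!
# KSL: the structure of a group of the class around one element
-/

set_option autoImplicit false

namespace Pool.Agent.helper95.FR

open scoped commutatorElement

universe u

theorem KSL2_one (hBAS : BAS_stmt.{u}) {G : Type u} [Group G] {N : Subgroup G} (hK : KS N) {x : G}
    (hx : x ∈ N) : ∀ z ∈ NC N x, (∀ w ∈ NC N x, z * w = w * z) → z = 1 := by
  intro z hz hc
  obtain ⟨_, b2, b3, _, _, _, _⟩ := hBAS G N x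
  obtain ⟨g, hg, hw⟩ := hK.A2 z (b2 hx hz)
  have h1 : ⁅z, g * z * g⁻¹⁆ = 1 := by
    rw [commutatorElement_eq_one_iff_mul_comm]
    exact hc _ (b3 g hg z hz)
  rw [h1] at hw
  obtain ⟨h, _, k, _, e⟩ := hw
  rw [e]
  group

theorem KSL2_two (hBAS : BAS_stmt.{u}) {G : Type u} [Group G] {N : Subgroup G} (hK : KS N) {x : G}
    (hx : x ∈ N) : Good N x := by
  refine ⟨?_, KSL2_one hBAS hK hx⟩
  intro y hy
  obtain ⟨_, b2, _, b4, _, _, b7⟩ := hBAS G N x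
  obtain ⟨u, hu, hp⟩ := hK.A1 x hx y hy
  have hu' := b7 u hu
  exact ⟨u, hu', u⁻¹ * y, N.mul_mem (N.inv_mem (b2 hx hu')) hy, (b4 _).1 hp,
    (mul_inv_cancel_left u y).symm⟩

theorem KSL2_three (hBAS : BAS_stmt.{u}) {G : Type u} [Group G] {N : Subgroup G} (hK : KS N)
    {x : G} (hx : x ∈ N) :
    ∀ g ∈ N, ∃ s ∈ NC N x, ∀ z ∈ NC N x, g * z * g⁻¹ = s * z * s⁻¹ := by
  intro g hg
  obtain ⟨s, hs, t, _, hc, e⟩ := (KSL2_two hBAS hK hx).1 g hg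
  refine ⟨s, hs, fun z hz => ?_⟩
  have h1 : t * z * t⁻¹ = z := by rw [hc z hz, mul_inv_cancel_right]
  calc g * z * g⁻¹ = s * (t * z * t⁻¹) * s⁻¹ := by
        rw [e]
        group
    _ = s * z * s⁻¹ := by rw [h1]

theorem KSL2_four (hBAS : BAS_stmt.{u}) {G : Type u} [Group G] {N : Subgroup G} (hK : KS N)
    {x : G} (hx : x ∈ N) :
    ∀ y ∈ NC N x, ∃ h ∈ NC N x, ∃ k ∈ NC N x, y = h * x * h⁻¹ * (k * x⁻¹ * k⁻¹) := by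
  intro y hy
  obtain ⟨b1, b2, _, b4, _, _, b7⟩ := hBAS G N x
  obtain ⟨u, hu, hp⟩ := hK.A1 x hx y (b2 hx hy)
  have hu' := b7 u hu
  have h1 : u⁻¹ * y = 1 := KSL2_one hBAS hK hx _ ((NC N x).mul_mem ((NC N x).inv_mem hu') hy)
    ((b4 _).1 hp)
  have h2 : y = u := by
    rw [inv_mul_eq_one] at h1
    exact h1.symm
  obtain ⟨h, hh, k, hk, e⟩ := hu
  obtain ⟨s, hs, hs'⟩ := KSL2_three hBAS hK hx h hh
  obtain ⟨t, ht, ht'⟩ := KSL2_three hBAS hK hx k hk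
  refine ⟨s, hs, t, ht, ?_⟩
  rw [h2, e, hs' x b1, ht' x⁻¹ ((NC N x).inv_mem b1)]

theorem KSL2_five (hBAS : BAS_stmt.{u}) {G : Type u} [Group G] {N : Subgroup G} (hK : KS N)
    {x : G} (hx : x ∈ N) :
    ∀ y ∈ N, ∀ y' ∈ NC N x, ∀ y'' : G, (∀ z ∈ NC N x, y'' * z = z * y'') → y = y' * y'' →
      y' ∈ NC N y := by
  intro y hy y' hy' y'' hc e
  obtain ⟨_, b2, b3, _, _, _, _⟩ := hBAS G N x
  obtain ⟨g, hg, hw⟩ := hK.A2 y' (b2 hx hy')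
  have ht : g * y' * g⁻¹ ∈ NC N x := b3 g hg y' hy'
  obtain ⟨c1, _, c3, _, c5, _, _⟩ := hBAS G N y
  have hcomm : ⁅y, g * y' * g⁻¹⁆ = ⁅y', g * y' * g⁻¹⁆ := by
    have h1 : y'' * (g * y' * g⁻¹) * y''⁻¹ = g * y' * g⁻¹ := by
      rw [hc _ ht, mul_inv_cancel_right]
    rw [commutatorElement_def, commutatorElement_def]
    calc y * (g * y' * g⁻¹) * y⁻¹ * (g * y' * g⁻¹)⁻¹ =
        y' * (y'' * (g * y' * g⁻¹) * y''⁻¹) * y'⁻¹ * (g * y' * g⁻¹)⁻¹ := by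
          rw [e]
          group
      _ = y' * (g * y' * g⁻¹) * y'⁻¹ * (g * y' * g⁻¹)⁻¹ := by rw [h1]
  have hmem : ⁅y', g * y' * g⁻¹⁆ ∈ NC N y := by
    rw [← hcomm, commutatorElement_def]
    have h2 := c3 (g * y' * g⁻¹) (b2 hx ht) y⁻¹ ((NC N y).inv_mem c1)
    have h3 := (NC N y).mul_mem c1 h2
    have h4 : y * (g * y' * g⁻¹) * y⁻¹ * (g * y' * g⁻¹)⁻¹ =
        y * (g * y' * g⁻¹ * y⁻¹ * (g * y' * g⁻¹)⁻¹) := by group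
    rw [h4]
    exact h3
  obtain ⟨_, _, _, _, _, _, d7⟩ := hBAS G N ⁅y', g * y' * g⁻¹⁆
  exact c5 _ hmem (d7 _ hw)

theorem KSL2_six (hBAS : BAS_stmt.{u}) {G : Type u} [Group G] {N : Subgroup G} (hK : KS N)
    {x : G} (hx : x ∈ N) :
    ∃ g ∈ NC N x, ⁅x, g * x * g⁻¹⁆ ∈ NC N x ∧ ∃ h ∈ NC N ⁅x, g * x * g⁻¹⁆,
      ∃ k ∈ NC N ⁅x, g * x * g⁻¹⁆,
        x = h * ⁅x, g * x * g⁻¹⁆ * h⁻¹ * (k * ⁅x, g * x * g⁻¹⁆⁻¹ * k⁻¹) := by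
  obtain ⟨b1, b2, b3, _, _, _, _⟩ := hBAS G N x
  obtain ⟨g₀, hg₀, hw⟩ := hK.A2 x hx
  obtain ⟨g, hg, hg'⟩ := KSL2_three hBAS hK hx g₀ hg₀
  rw [hg' x b1] at hw
  have hgx : g * x * g⁻¹ ∈ NC N x := b3 g (b2 hx hg) x b1
  have hmem : ⁅x, g * x * g⁻¹⁆ ∈ NC N x := by
    rw [commutatorElement_def]
    exact (NC N x).mul_mem ((NC N x).mul_mem ((NC N x).mul_mem b1 hgx) ((NC N x).inv_mem b1))
      ((NC N x).inv_mem hgx)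
  obtain ⟨_, _, _, _, _, _, d7⟩ := hBAS G N ⁅x, g * x * g⁻¹⁆
  exact ⟨g, hg, hmem, KSL2_four hBAS hK (b2 hx hmem) x (d7 x hw)⟩

theorem KSL (hBAS : BAS_stmt.{u}) : KSL_stmt.{u} := by
  intro G _ N hK x hx
  exact ⟨KSL2_two hBAS hK hx, KSL2_three hBAS hK hx, KSL2_four hBAS hK hx, KSL2_five hBAS hK hx,
    KSL2_six hBAS hK hx⟩

end Pool.Agent.helper95.FR
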